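import Pool.Agent.Q12.CM.Prd

/-!
# Galois orbits of almost all special points of products of modular curves: all types

`X = Y(1) × ... × Y(1)`, `Y(1) = SL₂(ℤ) \ ℍ`.  The type of a special point of `X` is the family of the orders
`R 1, ..., R n` of imaginary quadratic fields by which its coordinates have complex multiplication.  The
special points of a given type are the points `(z 1 (a 1), ..., z n (a n))`, where `a j` is an element of
the class group of `R j` and `z j c` is the point of `Y(1)` which belongs to the lattices in the class `c`.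
By the main theorem of complex multiplication the Galois orbit of this point over a number field `F` is the
union of at most `2^n` sets of the form `{(z j (y j * b j * (a j) ^ (s j)))_j : b ∈ B}`, where `B` is a
subgroup of the product of the class groups whose projections to the class groups have index at most
`2^(n-1) [F : ℚ]`, where `s j = ± 1`, and where the `y j` do not depend on the `a j`.

The theorem shows that for all types with large discriminants these orbits are equidistributed in `X` for
all `a` outside a set of density zero.  The fields and orders may be equal, different, or related in any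
way.  It uses the equidistribution of the points `z c` in `Y(1)`, twisted by all characters of the class
group of the order (Duke; Michel, Harcos - Michel; Zhang, Michel - Venkatesh for all orders), which is the
hypothesis `TwistedDuke`.
-/

set_option autoImplicit false

namespace Pool.Agent.Results.MP_ad7a55_nt.AllOrders

open UpperHalfPlane MeasureTheory Pool.Agent.Q12.CM nonZeroDivisors
open scoped MatrixGroups

/-- The test functions on `SL₂(ℤ) \ ℍ`: continuous functions with compact support, considered as invariant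
functions on `ℍ` which vanish near the cusp (they are bounded). -/
structure IsTest (f : ℍ → ℂ) : Prop where
  cont : Continuous f
  inv : ∀ (γ : SL(2, ℤ)) (τ : ℍ), f (γ • τ) = f τ
  cusp : ∃ Y : ℝ, ∀ τ : ℍ, Y < τ.im → f τ = 0
  bounded : ∃ C : ℝ, ∀ τ : ℍ, ‖f τ‖ ≤ C

/-- The mean value of `f` for the hyperbolic probability measure on `SL₂(ℤ) \ ℍ`. -/
noncomputable def mean (f : ℍ → ℂ) : ℂ := ⨍ τ in ModularGroup.fd, f τ

/-- Let `K` be the field of fractions of `R` and `φ : K → ℂ` an embedding.  For every class `c` the lattice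
`ℤ + ℤ z(c)` is homothetic to an invertible fractional ideal of `R` in the class `c`. -/
def IsCM {K R : Type} [Field K] [CommRing R] [IsDomain R] [Algebra R K] [IsFractionRing R K]
    (φ : K →+* ℂ) (z : ClassGroup R → ℍ) : Prop :=
  ∀ c : ClassGroup R, ∃ I : (FractionalIdeal R⁰ K)ˣ, ClassGroup.mk K I = c ∧ ∃ l : ℂ, l ≠ 0 ∧
    ∀ w : ℂ, (∃ x : K, x ∈ (I : FractionalIdeal R⁰ K) ∧ φ x = w) ↔
      ∃ p q : ℤ, w = l * (p + q * (z c : ℂ))

open Classical in
/-- The twisted theorem of Duke: for every test function `f` and for the orders `R` of imaginary quadratic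
fields (domains with a ℤ-basis `b` of two elements) the numbers `h(R)⁻¹ ∑ χ(c) f(z(c))` tend to the mean of
`f` for `χ = 1` and to `0` for `χ ≠ 1` as `|disc R| → ∞`, uniformly in the characters `χ` of the class group
of `R`. -/
def TwistedDuke : Prop :=
  ∀ f : ℍ → ℂ, IsTest f → ∀ ε : ℝ, 0 < ε → ∃ D : ℝ, ∀ (K R : Type) [Field K] [CommRing R]
    [IsDomain R] [Algebra R K] [IsFractionRing R K] [Fintype (ClassGroup R)]
    (b : Module.Basis (Fin 2) ℤ R) (φ : K →+* ℂ) (z : ClassGroup R → ℍ), IsCM φ z →
    D ≤ |(Algebra.discr ℤ b : ℝ)| → ∀ χ : ClassGroup R →* ℂ,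
      ‖(∑ c, χ c * f (z c)) / Fintype.card (ClassGroup R) - if χ = 1 then mean f else 0‖ ≤ ε

/-- The projection of the subgroup `B` of the product to the `j`-th factor. -/
def projection {n : ℕ} {G : Fin n → Type} [∀ j, CommGroup (G j)] (B : Subgroup (∀ j, G j))
    (j : Fin n) : Subgroup (G j) :=
  B.map (Pi.evalMonoidHom G j)

/-- The average of `f 1 ⊗ ... ⊗ f n` over the points with the coordinates
`z j (y j * b j * (a j) ^ (s j))`, `b ∈ B`. -/
noncomputable def orbitMean {n : ℕ} {G : Fin n → Type} [∀ j, CommGroup (G j)] (f : Fin n → ℍ → ℂ)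
    (z : ∀ j, G j → ℍ) (B : Subgroup (∀ j, G j)) (y : ∀ j, G j) (s : Fin n → ℤˣ) (a : ∀ j, G j) : ℂ :=
  (∑ᶠ b : B, ∏ j, f j (z j (y j * b.1 j * a j ^ (s j : ℤ)))) / Nat.card B

/-- **Equidistribution of the Galois orbits of almost all special points of every type.**  Suppose the
twisted theorem of Duke.  Let `n`, `M` be natural numbers, `f 1, ..., f n` test functions and `ε > 0`.  Then
there is `D` such that for all orders `R 1, ..., R n` of imaginary quadratic fields with discriminants of
absolute value at least `D`, all subgroups `B` of the product of the class groups whose projections have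
index at most `M`, all `y` and all signs `s` the average over the orbit differs from the product of the
means by more than `ε` for at most `ε h(R 1) ... h(R n)` of the special points of the type. -/
theorem result (hDuke : TwistedDuke) (n M : ℕ) (f : Fin n → ℍ → ℂ) (hf : ∀ j, IsTest (f j)) (ε : ℝ)
    (hε : 0 < ε) :
    ∃ D : ℝ, ∀ (K R : Fin n → Type) [∀ j, Field (K j)] [∀ j, CommRing (R j)] [∀ j, IsDomain (R j)]
      [∀ j, Algebra (R j) (K j)] [∀ j, IsFractionRing (R j) (K j)]
      [∀ j, Fintype (ClassGroup (R j))] (b : ∀ j, Module.Basis (Fin 2) ℤ (R j))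
      (φ : ∀ j, K j →+* ℂ) (z : ∀ j, ClassGroup (R j) → ℍ), (∀ j, IsCM (φ j) (z j)) →
      (∀ j, D ≤ |(Algebra.discr ℤ (b j) : ℝ)|) →
      ∀ B : Subgroup (∀ j, ClassGroup (R j)), (∀ j, (projection B j).index ≤ M) →
      ∀ (y : ∀ j, ClassGroup (R j)) (s : Fin n → ℤˣ),
        ({a : ∀ j, ClassGroup (R j) | ε < ‖orbitMean f z B y s a - ∏ j, mean (f j)‖}.ncard : ℝ) ≤
          ε * ∏ j, (Fintype.card (ClassGroup (R j)) : ℝ) := by
  classical
  choose C₀ hC₀ using fun j => (hf j).bounded
  obtain ⟨C, hC1, hC, hCm⟩ : ∃ C : ℝ, 1 ≤ C ∧ (∀ j τ, ‖f j τ‖ ≤ C) ∧ ∀ j, ‖mean (f j)‖ ≤ C := by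
    refine ⟨1 + ∑ j, (|C₀ j| + ‖mean (f j)‖), ?_, fun j τ => ?_, fun j => ?_⟩
    · have : 0 ≤ ∑ j, (|C₀ j| + ‖mean (f j)‖) := Finset.sum_nonneg fun j _ => by positivity
      linarith
    · have h1 := Finset.single_le_sum (f := fun j => |C₀ j| + ‖mean (f j)‖)
        (fun i _ => by positivity) (Finset.mem_univ j)
      have h2 := hC₀ j τ
      have h3 := le_abs_self (C₀ j)
      have h4 := norm_nonneg (mean (f j))
      linarith
    · have h1 := Finset.single_le_sum (f := fun j => |C₀ j| + ‖mean (f j)‖)
        (fun i _ => by positivity) (Finset.mem_univ j)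
      have h3 := abs_nonneg (C₀ j)
      linarith
  obtain ⟨w, hw0, hw⟩ : ∃ w : ℝ, 0 < w ∧ (n : ℝ) ^ 2 * (M * w * (2 * C) ^ (2 * n)) / ε ^ 2 ≤ ε := by
    have hp : 0 < (n : ℝ) ^ 2 * (M * (2 * C) ^ (2 * n)) + 1 := by positivity
    refine ⟨ε ^ 3 / ((n : ℝ) ^ 2 * (M * (2 * C) ^ (2 * n)) + 1), by positivity, ?_⟩
    rw [div_le_iff₀ (by positivity)]
    calc (n : ℝ) ^ 2 * (M * (ε ^ 3 / ((n : ℝ) ^ 2 * (M * (2 * C) ^ (2 * n)) + 1)) * (2 * C) ^ (2 * n))
        = ε ^ 3 * (((n : ℝ) ^ 2 * (M * (2 * C) ^ (2 * n))) /
            ((n : ℝ) ^ 2 * (M * (2 * C) ^ (2 * n)) + 1)) := by ring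
      _ ≤ ε ^ 3 * 1 := by
          refine mul_le_mul_of_nonneg_left ?_ (by positivity)
          rw [div_le_one hp]
          linarith
      _ = ε * ε ^ 2 := by ring
  choose D hD using fun j => hDuke (f j) (hf j) w hw0
  refine ⟨∑ j, |D j|, fun K R _ _ _ _ _ _ b φ z hz hdisc B hB y s => ?_⟩
  have hW : ∀ j, ∀ χ : ClassGroup (R j) →* ℂ, ‖W χ fun g => f j (z j g) - mean (f j)‖ ≤ w := by
    intro j χ
    rw [W_sub]
    refine hD j (K j) (R j) (b j) (φ j) (z j) (hz j) ?_ χ
    refine le_trans ?_ (hdisc j)
    exact (le_abs_self _).trans (Finset.single_le_sum (f := fun j => |D j|) (fun i _ => abs_nonneg _)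
      (Finset.mem_univ j))
  have h2 := P_count (F := fun j g => f j (z j g)) (m := fun j => mean (f j)) hC1
    (fun j g => hC j _) hCm B hB hW hε y s
  refine le_trans (le_of_eq ?_) (h2.trans ?_)
  · rfl
  · have : (0 : ℝ) ≤ ∏ j, (Fintype.card (ClassGroup (R j)) : ℝ) := by positivity
    gcongr

end Pool.Agent.Results.MP_ad7a55_nt.AllOrders
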