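import Pool.Agent.Q12.CM.Sub

/-!
# Galois orbits of almost all special points of products of modular curves

`X = Y(1) × ... × Y(1)`, `Y(1) = SL₂(ℤ) \ ℍ`.  For an imaginary quadratic field `K` the special points of
`X` all of whose coordinates have complex multiplication by `𝓞_K` are the points
`(z (a 1), ..., z (a n))`, where `a j` is an ideal class and `z c` is the point of `Y(1)` which belongs to
the lattices in the class `c`.  By the main theorem of complex multiplication the Galois orbit of this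
point over a number field `F` consists of the points `(z (b * a 1), ..., z (b * a n))`, `b ∈ B`, and, if `K`
is not contained in `F`, of the points `(z (x * b * (a 1)⁻¹), ..., z (x * b * (a n)⁻¹))`, `b ∈ B`, where `B`
is a subgroup of the class group of index at most `[F : ℚ]` and `x` is some class.

The theorem shows that for `|disc K| → ∞` these orbits are equidistributed in `X` for all `a` outside a set
of density zero.  It uses the equidistribution of the points `z c` in `Y(1)`, twisted by all characters of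
the class group (Duke; Michel, Harcos - Michel), which is the hypothesis `TwistedDuke`.
-/

set_option autoImplicit false

namespace Pool.Agent.Results.MP_ad7a55_nt.AlmostAllPoints

open NumberField UpperHalfPlane MeasureTheory Pool.Agent.Q12.CM
open scoped MatrixGroups

/-- The test functions on `SL₂(ℤ) \ ℍ`: continuous functions with compact support, considered as invariant
functions on `ℍ` which vanish near the cusp (they are bounded). -/
structure IsTest (f : ℍ → ℂ) : Prop where
  cont : Continuous f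
  inv : ∀ (γ : SL(2, ℤ)) (τ : ℍ), f (γ • τ) = f τ
  cusp : ∃ Y : ℝ, ∀ τ : ℍ, Y < τ.im → f τ = 0
  bounded : ∃ C : ℝ, ∀ τ : ℍ, ‖f τ‖ ≤ C

/-- The mean value of `f` for the hyperbolic probability measure on `SL₂(ℤ) \ ℍ`. -/
noncomputable def mean (f : ℍ → ℂ) : ℂ := ⨍ τ in ModularGroup.fd, f τ

/-- `K` is an imaginary quadratic field, embedded in `ℂ` by `φ`, and for every ideal class `c` the lattice
`ℤ + ℤ z(c)` is homothetic to an ideal of the class `c`. -/
def IsCM {K : Type} [Field K] [NumberField K] (φ : K →+* ℂ) (z : ClassGroup (𝓞 K) → ℍ) : Prop :=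
  Module.finrank ℚ K = 2 ∧ ∀ c : ClassGroup (𝓞 K), ∃ I : nonZeroDivisors (Ideal (𝓞 K)),
    ClassGroup.mk0 I = c ∧ ∃ l : ℂ, l ≠ 0 ∧
      ∀ w : ℂ, (∃ x ∈ (I : Ideal (𝓞 K)), φ x = w) ↔ ∃ p q : ℤ, w = l * (p + q * (z c : ℂ))

open Classical in
/-- The twisted theorem of Duke: for every test function `f` the numbers
`h(K)⁻¹ ∑ χ(c) f(z(c))` tend to the mean of `f` for `χ = 1` and to `0` for `χ ≠ 1` as `|disc K| → ∞`,
uniformly in the characters `χ` of the class group (Duke; Michel, Harcos - Michel). -/
def TwistedDuke : Prop :=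
  ∀ f : ℍ → ℂ, IsTest f → ∀ ε : ℝ, 0 < ε → ∃ D : ℝ, ∀ (K : Type) [Field K] [NumberField K]
    (φ : K →+* ℂ) (z : ClassGroup (𝓞 K) → ℍ), IsCM φ z → D ≤ |discr K| →
    ∀ χ : ClassGroup (𝓞 K) →* ℂ,
      ‖(∑ c, χ c * f (z c)) / Fintype.card (ClassGroup (𝓞 K)) - if χ = 1 then mean f else 0‖ ≤ ε

/-- The average of `f 1 ⊗ ... ⊗ f n` over the points `(z (x * b * a 1), ..., z (x * b * a n))`, `b ∈ B`. -/
noncomputable def orbitMean {G : Type} [CommGroup G] {n : ℕ} (f : Fin n → ℍ → ℂ) (z : G → ℍ)
    (B : Subgroup G) (x : G) (a : Fin n → G) : ℂ :=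
  (∑ᶠ b : B, ∏ j, f j (z (x * b * a j))) / Nat.card B

/-- The set of the `a` for which, for some `x`, the average over the orbit of `a` or of `a⁻¹` translated by
`x` differs from the product of the means by more than `ε`. -/
def exceptional {G : Type} [CommGroup G] {n : ℕ} (f : Fin n → ℍ → ℂ) (z : G → ℍ) (B : Subgroup G)
    (ε : ℝ) : Set (Fin n → G) :=
  {a | ∃ x : G, ε < ‖orbitMean f z B x a - ∏ j, mean (f j)‖ ∨
    ε < ‖orbitMean f z B x (fun j => (a j)⁻¹) - ∏ j, mean (f j)‖}

/-- **Equidistribution of the Galois orbits of almost all special points.**  Suppose the twisted theorem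
of Duke.  Let `n`, `M` be natural numbers, `f 1, ..., f n` test functions and `ε > 0`.  Then there is `D`
such that for all imaginary quadratic fields `K` with `|disc K| ≥ D` and all subgroups `B` of index at
most `M` of the class group the set of the exceptions has at most `ε h(K)^n` of the `h(K)^n` elements. -/
theorem result (hDuke : TwistedDuke) (n M : ℕ) (f : Fin n → ℍ → ℂ) (hf : ∀ j, IsTest (f j)) (ε : ℝ)
    (hε : 0 < ε) :
    ∃ D : ℝ, ∀ (K : Type) [Field K] [NumberField K] (φ : K →+* ℂ) (z : ClassGroup (𝓞 K) → ℍ),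
      IsCM φ z → D ≤ |discr K| → ∀ B : Subgroup (ClassGroup (𝓞 K)), B.index ≤ M →
        ((exceptional f z B ε).ncard : ℝ) ≤ ε * (Fintype.card (ClassGroup (𝓞 K)) : ℝ) ^ n := by
  classical
  choose C₀ hC₀ using fun j => (hf j).bounded
  obtain ⟨C, hC1, hC, hCm⟩ : ∃ C : ℝ, 1 ≤ C ∧ (∀ j τ, ‖f j τ‖ ≤ C) ∧ ∀ j, ‖mean (f j)‖ ≤ C := by
    refine ⟨1 + ∑ j, (|C₀ j| + ‖mean (f j)‖), ?_, fun j τ => ?_, fun j => ?_⟩
    · have : 0 ≤ ∑ j, (|C₀ j| + ‖mean (f j)‖) := Finset.sum_nonneg fun j _ => by positivity
      linarith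
    · have h1 := Finset.single_le_sum (f := fun j => |C₀ j| + ‖mean (f j)‖)
        (fun i _ => by positivity) (Finset.mem_univ j)
      have h2 := hC₀ j τ
      have h3 := le_abs_self (C₀ j)
      have h4 := norm_nonneg (mean (f j))
      linarith
    · have h1 := Finset.single_le_sum (f := fun j => |C₀ j| + ‖mean (f j)‖)
        (fun i _ => by positivity) (Finset.mem_univ j)
      have h3 := abs_nonneg (C₀ j)
      linarith
  -- the size of the Weyl sums
  obtain ⟨w, hw0, hw⟩ : ∃ w : ℝ, 0 < w ∧
      2 * M * (n * (√(M * w) * (2 * C) ^ n) / ε) ≤ ε := by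
    have hlim : Filter.Tendsto (fun w : ℝ => 2 * M * (n * (√(M * w) * (2 * C) ^ n) / ε))
        (nhdsWithin 0 (Set.Ioi 0)) (nhds (2 * M * (n * (√(M * 0) * (2 * C) ^ n) / ε))) := by
      apply Filter.Tendsto.mono_left _ nhdsWithin_le_nhds
      apply Continuous.tendsto
      fun_prop
    rw [mul_zero, Real.sqrt_zero, zero_mul, mul_zero, zero_div, mul_zero] at hlim
    have h1 := (hlim.eventually_lt_const hε).and self_mem_nhdsWithin
    obtain ⟨w, h2, h3⟩ := h1.exists
    exact ⟨w, h3, h2.le⟩
  choose D hD using fun j => hDuke (f j) (hf j) w hw0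
  refine ⟨∑ j, |D j|, fun K _ _ φ z hz hK B hB => ?_⟩
  have hW : ∀ j, ∀ χ : ClassGroup (𝓞 K) →* ℂ, ‖W χ fun g => f j (z g) - mean (f j)‖ ≤ w := by
    intro j χ
    rw [W_sub]
    refine hD j K φ z hz ?_ χ
    refine le_trans ?_ hK
    exact (le_abs_self _).trans (Finset.single_le_sum (f := fun j => |D j|) (fun i _ => abs_nonneg _)
      (Finset.mem_univ j))
  have h1 := count_all (F := fun j g => f j (z g)) hC1 (fun j g => hC j _) hCm hB hW hε
  have h2 : ∀ (x : ClassGroup (𝓞 K)) (a : Fin n → ClassGroup (𝓞 K)), orbitMean f z B x a =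
      ES (fun j g => f j (z g)) B (fun j => x * a j) := by
    intro x a
    unfold orbitMean ES
    congr 1
    refine finsum_congr fun b => Finset.prod_congr rfl fun j _ => ?_
    rw [← mul_assoc, mul_comm x]
  have h3 : exceptional f z B ε = {a : Fin n → ClassGroup (𝓞 K) | ∃ x : ClassGroup (𝓞 K),
      ε < ‖ES (fun j g => f j (z g)) B (fun j => x * a j) - ∏ j, mean (f j)‖ ∨
      ε < ‖ES (fun j g => f j (z g)) B (fun j => x * (a j)⁻¹) - ∏ j, mean (f j)‖} := by
    unfold exceptional
    simp only [h2]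
  rw [h3]
  refine h1.trans ?_
  gcongr

end Pool.Agent.Results.MP_ad7a55_nt.AlmostAllPoints
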