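import Pool.Agent.Q12.CM.Fields

/-!
# Galois orbits of special points with complex multiplication by several fields

`X = Y(1)^N`, `Y(1) = SL₂(ℤ) \ ℍ`.  A special point of `X` whose coordinates have complex multiplication by
rings of integers belongs to imaginary quadratic fields `K 1, ..., K r`, pairwise different, and for every
`i` to ideal classes `a i 1, ..., a i (n i)` of `K i`: its coordinates are the `z i (a i j)`, where `z i c`
is the point of `Y(1)` which belongs to the class `c` of `K i`.  By the main theorem of complex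
multiplication its Galois orbit over a number field `F` is a union of sets of the form
`{(z i (x i * b i * (a i j) ^ (s i)))_{i j} : b ∈ B}`, where `B` is a subgroup of the product of the class
groups, `x i` is a class of `K i` and `s i = ± 1`.  For pairwise different fields the group `B` contains the
product of the groups of the `2^(r-1)`-th powers of the norms from a number field whose degree is bounded
in terms of `F` and `r`, and these subgroups have index `|disc (K i)|^o(1)`.

The theorem shows that these orbits are equidistributed, with a power saving in the discriminants, for all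
`a` if there is only one coordinate for each field, and for all `a` outside a set of a proportion which is a
negative power of the discriminants in general.  It uses the equidistribution of the points `z c`
in `Y(1)`, twisted by the characters of the class group, with a power saving (Duke; Duke, Friedlander,
Iwaniec; Michel, Harcos - Michel), which is the hypothesis `TwistedDuke`.
-/

set_option autoImplicit false

namespace Pool.Agent.Results.MP_ad7a55_nt.SeveralFields

open NumberField UpperHalfPlane MeasureTheory Pool.Agent.Q12.CM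
open scoped MatrixGroups ContDiff

/-- The smooth functions with compact support on `SL₂(ℤ) \ ℍ`, considered as invariant functions on `ℍ`
which vanish near the cusp (they are bounded). -/
structure IsTest (f : ℍ → ℂ) : Prop where
  smooth : ContDiffOn ℝ ∞ (fun w : ℂ => f (ofComplex w)) {w : ℂ | 0 < w.im}
  inv : ∀ (γ : SL(2, ℤ)) (τ : ℍ), f (γ • τ) = f τ
  cusp : ∃ Y : ℝ, ∀ τ : ℍ, Y < τ.im → f τ = 0
  bounded : ∃ C : ℝ, ∀ τ : ℍ, ‖f τ‖ ≤ C

/-- The mean value of `f` for the hyperbolic probability measure on `SL₂(ℤ) \ ℍ`. -/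
noncomputable def mean (f : ℍ → ℂ) : ℂ := ⨍ τ in ModularGroup.fd, f τ

/-- `K` is an imaginary quadratic field, embedded in `ℂ` by `φ`, and for every ideal class `c` the lattice
`ℤ + ℤ z(c)` is homothetic to an ideal of the class `c`. -/
def IsCM {K : Type} [Field K] [NumberField K] (φ : K →+* ℂ) (z : ClassGroup (𝓞 K) → ℍ) : Prop :=
  Module.finrank ℚ K = 2 ∧ ∀ c : ClassGroup (𝓞 K), ∃ I : nonZeroDivisors (Ideal (𝓞 K)),
    ClassGroup.mk0 I = c ∧ ∃ l : ℂ, l ≠ 0 ∧
      ∀ w : ℂ, (∃ x ∈ (I : Ideal (𝓞 K)), φ x = w) ↔ ∃ p q : ℤ, w = l * (p + q * (z c : ℂ))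

open Classical in
/-- The twisted theorem of Duke with a power saving: for every test function `f` the numbers
`h(K)⁻¹ ∑ χ(c) f(z(c))` differ from the mean of `f` for `χ = 1`, and from `0` for `χ ≠ 1`, by at most
`C |disc K|^(-δ)` with a constant `C` which depends only on `f` (Duke; Michel, Harcos - Michel). -/
def TwistedDuke (δ : ℝ) : Prop :=
  ∀ f : ℍ → ℂ, IsTest f → ∃ C : ℝ, ∀ (K : Type) [Field K] [NumberField K]
    (φ : K →+* ℂ) (z : ClassGroup (𝓞 K) → ℍ), IsCM φ z → ∀ χ : ClassGroup (𝓞 K) →* ℂ,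
      ‖(∑ c, χ c * f (z c)) / Fintype.card (ClassGroup (𝓞 K)) - if χ = 1 then mean f else 0‖ ≤
        C * |(discr K : ℝ)| ^ (-δ)

/-- The average of the product of the `f i j` over the points with the coordinates
`z i (x i * b i * (a i j) ^ (s i))`, `b ∈ B`. -/
noncomputable def orbitMean {r : ℕ} {G : Fin r → Type} [∀ i, CommGroup (G i)] {n : Fin r → ℕ}
    (f : ∀ i, Fin (n i) → ℍ → ℂ) (z : ∀ i, G i → ℍ) (B : Subgroup (∀ i, G i)) (x : ∀ i, G i)
    (s : Fin r → ℤˣ) (a : ∀ i, Fin (n i) → G i) : ℂ :=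
  (∑ᶠ b : B, ∏ i, ∏ j, f i j (z i (x i * b.1 i * a i j ^ (s i : ℤ)))) / Nat.card B

/-- The set of the `a` for which, for some `x` and `s`, the average differs from the product of the means
by more than `ε`. -/
def exceptional {r : ℕ} {G : Fin r → Type} [∀ i, CommGroup (G i)] {n : Fin r → ℕ}
    (f : ∀ i, Fin (n i) → ℍ → ℂ) (z : ∀ i, G i → ℍ) (B : Subgroup (∀ i, G i)) (ε : ℝ) :
    Set (∀ i, Fin (n i) → G i) :=
  {a | ∃ (x : ∀ i, G i) (s : Fin r → ℤˣ),
    ε < ‖orbitMean f z B x s a - ∏ i, ∏ j, mean (f i j)‖}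

/-- **Equidistribution of the Galois orbits of special points with several fields.**  Suppose the twisted
theorem of Duke with the saving `δ`, and put `η = δ / 8`.  For all test functions `f i j` there is a `C`
such that for all imaginary quadratic fields `K i` and all subgroups `B` of the product of the class groups
which contain a product of subgroups of indices at most `|disc (K i)|^η`, the averages over the `B`-orbits
differ from the product of the means by at most `C ∑ |disc (K i)|^(-η)`: for all `a` if all `n i` are at most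
one, and for all `a` outside a set of a proportion of at most the sum of the `|disc (K i)|^(-η)` over
the `i` with `n i ≥ 2` in general. -/
theorem result {δ : ℝ} (hδ : 0 < δ) (hDuke : TwistedDuke δ) (r : ℕ) (n : Fin r → ℕ)
    (f : ∀ i, Fin (n i) → ℍ → ℂ) (hf : ∀ i j, IsTest (f i j)) :
    ∃ C : ℝ, ∀ (K : Fin r → Type) [∀ i, Field (K i)] [∀ i, NumberField (K i)]
      (φ : ∀ i, K i →+* ℂ) (z : ∀ i, ClassGroup (𝓞 (K i)) → ℍ), (∀ i, IsCM (φ i) (z i)) →
      ∀ B' : ∀ i, Subgroup (ClassGroup (𝓞 (K i))),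
        (∀ i, ((B' i).index : ℝ) ≤ |(discr (K i) : ℝ)| ^ (δ / 8)) →
      ∀ B : Subgroup (∀ i, ClassGroup (𝓞 (K i))), Subgroup.pi Set.univ B' ≤ B →
        ((∀ i, n i ≤ 1) → exceptional f z B (C * ∑ i, |(discr (K i) : ℝ)| ^ (-(δ / 8))) = ∅) ∧
        ((exceptional f z B (C * ∑ i, |(discr (K i) : ℝ)| ^ (-(δ / 8)))).ncard : ℝ) ≤
          (∑ i, if 2 ≤ n i then |(discr (K i) : ℝ)| ^ (-(δ / 8)) else 0) *
            ∏ i, (Fintype.card (ClassGroup (𝓞 (K i))) : ℝ) ^ n i := by
  classical
  choose C₀ hC₀ using fun i j => (hf i j).bounded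
  choose C₁ hC₁ using fun i j => hDuke (f i j) (hf i j)
  set C : ℝ := 1 + ∑ i, ∑ j, (|C₀ i j| + ‖mean (f i j)‖) with hCdef
  have hsum : ∀ i j, |C₀ i j| + ‖mean (f i j)‖ ≤ ∑ i, ∑ j, (|C₀ i j| + ‖mean (f i j)‖) := by
    intro i j
    refine le_trans (Finset.single_le_sum (f := fun j => |C₀ i j| + ‖mean (f i j)‖)
      (fun _ _ => by positivity) (Finset.mem_univ j)) ?_
    exact Finset.single_le_sum (f := fun i => ∑ j, (|C₀ i j| + ‖mean (f i j)‖))
      (fun _ _ => Finset.sum_nonneg fun _ _ => by positivity) (Finset.mem_univ i)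
  have hC1 : 1 ≤ C := by
    have : 0 ≤ ∑ i, ∑ j, (|C₀ i j| + ‖mean (f i j)‖) :=
      Finset.sum_nonneg fun _ _ => Finset.sum_nonneg fun _ _ => by positivity
    linarith
  have hC : ∀ i j τ, ‖f i j τ‖ ≤ C := by
    intro i j τ
    have h1 := hsum i j
    have h2 := hC₀ i j τ
    have h3 := le_abs_self (C₀ i j)
    have h4 := norm_nonneg (mean (f i j))
    linarith
  have hCm : ∀ i j, ‖mean (f i j)‖ ≤ C := by
    intro i j
    have h1 := hsum i j
    have h3 := abs_nonneg (C₀ i j)
    linarith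
  set Cw : ℝ := ∑ i, ∑ j, |C₁ i j| with hCw
  have hCw0 : 0 ≤ Cw := Finset.sum_nonneg fun _ _ => Finset.sum_nonneg fun _ _ => abs_nonneg _
  have hCwle : ∀ i j, C₁ i j ≤ Cw := by
    intro i j
    refine (le_abs_self _).trans (le_trans (Finset.single_le_sum (f := fun j => |C₁ i j|)
      (fun _ _ => abs_nonneg _) (Finset.mem_univ j)) ?_)
    exact Finset.single_le_sum (f := fun i => ∑ j, |C₁ i j|)
      (fun _ _ => Finset.sum_nonneg fun _ _ => abs_nonneg _) (Finset.mem_univ i)
  refine ⟨∑ i, (C ^ ∑ i, n i) ^ r * Cn (n i) C Cw, fun K _ _ φ z hz B' hB' B hB => ?_⟩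
  have hd1 : ∀ i, 1 ≤ |(discr (K i) : ℝ)| := by
    intro i
    have : 1 ≤ |discr (K i)| := Int.one_le_abs (NumberField.discr_ne_zero (K i))
    exact_mod_cast this
  have hT1 : ∀ i, 1 ≤ |(discr (K i) : ℝ)| ^ (δ / 8) := fun i =>
    Real.one_le_rpow (hd1 i) (by positivity)
  have hTinv : ∀ i, (|(discr (K i) : ℝ)| ^ (δ / 8))⁻¹ = |(discr (K i) : ℝ)| ^ (-(δ / 8)) := fun i =>
    (Real.rpow_neg (abs_nonneg _) _).symm
  have hT8 : ∀ i, ((|(discr (K i) : ℝ)| ^ (δ / 8)) ^ 8)⁻¹ = |(discr (K i) : ℝ)| ^ (-δ) := by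
    intro i
    rw [← Real.rpow_natCast, ← Real.rpow_mul (abs_nonneg _), ← Real.rpow_neg (abs_nonneg _)]
    congr 1
    push_cast
    ring
  have hCn0 : ∀ i, 0 ≤ Cn (n i) C Cw := by
    intro i
    have : 0 ≤ C := by linarith
    unfold Cn
    positivity
  have main := multi (F := fun i j g => f i j (z i g)) (m := fun i j => mean (f i j))
    (T := fun i => |(discr (K i) : ℝ)| ^ (δ / 8)) (w := fun i => Cw * |(discr (K i) : ℝ)| ^ (-δ))
    (K := ∑ i, (C ^ ∑ i, n i) ^ r * Cn (n i) C Cw) hC1 (fun i j g => hC i j _) hCm hB hT1 hB' hCw0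
    (fun i => by rw [hT8 i]) ?_ ?_
  · have he : exceptional f z B ((∑ i, (C ^ ∑ i, n i) ^ r * Cn (n i) C Cw) *
        ∑ i, |(discr (K i) : ℝ)| ^ (-(δ / 8))) =
        ExM (fun i j g => f i j (z i g)) (fun i j => mean (f i j)) B
          ((∑ i, (C ^ ∑ i, n i) ^ r * Cn (n i) C Cw) * ∑ i, (|(discr (K i) : ℝ)| ^ (δ / 8))⁻¹) := by
      have h2 : ∀ (x : ∀ i, ClassGroup (𝓞 (K i))) (s : Fin r → ℤˣ)
          (a : ∀ i, Fin (n i) → ClassGroup (𝓞 (K i))), orbitMean f z B x s a =
          EM (fun i j g => f i j (z i g)) B (fun i j => x i * a i j ^ (s i : ℤ)) := by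
        intro x s a
        unfold orbitMean EM
        congr 1
        refine finsum_congr fun b => Finset.prod_congr rfl fun i _ => Finset.prod_congr rfl fun j _ => ?_
        rw [← mul_assoc, mul_comm (x i)]
      unfold exceptional ExM
      simp only [h2, hTinv]
    have hcount : ((exceptional f z B ((∑ i, (C ^ ∑ i, n i) ^ r * Cn (n i) C Cw) *
        ∑ i, |(discr (K i) : ℝ)| ^ (-(δ / 8)))).ncard : ℝ) ≤
          (∑ i, if 2 ≤ n i then |(discr (K i) : ℝ)| ^ (-(δ / 8)) else 0) *
            ∏ i, (Fintype.card (ClassGroup (𝓞 (K i))) : ℝ) ^ n i := by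
      rw [he]
      refine main.trans (le_of_eq ?_)
      simp only [hTinv]
    refine ⟨fun hn => ?_, hcount⟩
    have h0 : (∑ i, if 2 ≤ n i then |(discr (K i) : ℝ)| ^ (-(δ / 8)) else 0) = 0 := by
      refine Finset.sum_eq_zero fun i _ => ?_
      rw [if_neg]
      have := hn i
      omega
    rw [h0, zero_mul] at hcount
    have h3 : (exceptional f z B ((∑ i, (C ^ ∑ i, n i) ^ r * Cn (n i) C Cw) *
        ∑ i, |(discr (K i) : ℝ)| ^ (-(δ / 8)))).ncard = 0 := by
      have : (0 : ℝ) ≤ ((exceptional f z B ((∑ i, (C ^ ∑ i, n i) ^ r * Cn (n i) C Cw) *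
        ∑ i, |(discr (K i) : ℝ)| ^ (-(δ / 8)))).ncard : ℝ) := Nat.cast_nonneg _
      exact_mod_cast le_antisymm hcount this
    exact (Set.ncard_eq_zero (Set.toFinite _)).1 h3
  · intro i j χ
    rw [W_sub]
    refine (hC₁ i j (K i) (φ i) (z i) (hz i) χ).trans ?_
    have : 0 ≤ |(discr (K i) : ℝ)| ^ (-δ) := by positivity
    exact mul_le_mul_of_nonneg_right (hCwle i j) this
  · intro i
    have hC0 : 0 ≤ C := by linarith
    exact Finset.single_le_sum (f := fun i => (C ^ ∑ i, n i) ^ r * Cn (n i) C Cw)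
      (fun i _ => mul_nonneg (by positivity) (hCn0 i)) (Finset.mem_univ i)

end Pool.Agent.Results.MP_ad7a55_nt.SeveralFields
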