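import Pool.Agent.Q12.CM.Cor

/-!
# Small Galois orbits of special points of products of modular curves

`X = Y(1) × ... × Y(1)`, `Y(1) = SL₂(ℤ) \ ℍ`.  The special points of `X` of the type `(R 1, ..., R n)`,
orders of imaginary quadratic fields, are the points `(z 1 (a 1), ..., z n (a n))`, where `a j` is an element
of the class group of `R j` and `z j c` is the point of `Y(1)` which belongs to the lattices in the class
`c`.  Let `p` be a prime number which splits in all `R j`, and `c j` the class of a prime ideal of `R j` over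
`p`.  Let `L` be a number field, of any degree, which contains the fields of the `R j` and has a place over
`p` with a completion of degree at most `r` over `ℚ_p`.  By the main theorem of complex multiplication the
orbit of the special point over `L` is `{(z j (b j * a j))_j : b ∈ B}`, where `B` is a subgroup of the product
of the class groups whose projections contain, for one of the two prime ideals over `p`, a power of `c j`
with an exponent between `1` and `r` (the Artin symbol at the place).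

The theorem shows that for all types with large discriminants in whose orders `p` splits, these orbits are
equidistributed in `X` for all `a` outside a set of density zero, although the index of `B` is not bounded.
It uses the equidistribution of the pairs `(z (c j ^ k * a), z a)` in the modular curve `Y₀(p^k)`, `k` fixed
(Duke's theorem with the level `p^k`, without characters), and the decay of the Hecke operators of
degree `p^k`, `k → ∞`, combined in the hypothesis `PairDuke`.
-/

set_option autoImplicit false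

namespace Pool.Agent.Results.MP_ad7a55_nt.SmallOrbits

open UpperHalfPlane MeasureTheory Pool.Agent.Q12.CM nonZeroDivisors
open scoped MatrixGroups ComplexConjugate

/-- The test functions on `SL₂(ℤ) \ ℍ`: continuous functions with compact support, considered as invariant
functions on `ℍ` which vanish near the cusp (they are bounded). -/
structure IsTest (f : ℍ → ℂ) : Prop where
  cont : Continuous f
  inv : ∀ (γ : SL(2, ℤ)) (τ : ℍ), f (γ • τ) = f τ
  cusp : ∃ Y : ℝ, ∀ τ : ℍ, Y < τ.im → f τ = 0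
  bounded : ∃ C : ℝ, ∀ τ : ℍ, ‖f τ‖ ≤ C

/-- The mean value of `f` for the hyperbolic probability measure on `SL₂(ℤ) \ ℍ`. -/
noncomputable def mean (f : ℍ → ℂ) : ℂ := ⨍ τ in ModularGroup.fd, f τ

/-- Let `K` be the field of fractions of `R` and `φ : K → ℂ` an embedding.  For every class `c` the lattice
`ℤ + ℤ z(c)` is homothetic to an invertible fractional ideal of `R` in the class `c`. -/
def IsCM {K R : Type} [Field K] [CommRing R] [IsDomain R] [Algebra R K] [IsFractionRing R K]
    (φ : K →+* ℂ) (z : ClassGroup R → ℍ) : Prop :=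
  ∀ c : ClassGroup R, ∃ I : (FractionalIdeal R⁰ K)ˣ, ClassGroup.mk K I = c ∧ ∃ l : ℂ, l ≠ 0 ∧
    ∀ w : ℂ, (∃ x : K, x ∈ (I : FractionalIdeal R⁰ K) ∧ φ x = w) ↔
      ∃ p q : ℤ, w = l * (p + q * (z c : ℂ))

/-- The number `p` splits in `R` into two different prime ideals, and `c` is the class of one of them. -/
def SplitClass (K : Type) {R : Type} [Field K] [CommRing R] [IsDomain R] [Algebra R K]
    [IsFractionRing R K] (p : ℕ) (c : ClassGroup R) : Prop :=
  ∃ (P Q : Ideal R) (I : (FractionalIdeal R⁰ K)ˣ), P.IsPrime ∧ Q.IsPrime ∧ P ≠ Q ∧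
    P * Q = Ideal.span {(p : R)} ∧ (I : FractionalIdeal R⁰ K) = (P : FractionalIdeal R⁰ K) ∧
    ClassGroup.mk K I = c

/-- Duke's theorem for the points and for the pairs of points at the distance `p^k`: for every test function
`f`, (1) the numbers `h(R)⁻¹ ∑ f(z(c))` tend to the mean of `f` as `|disc R| → ∞`, `R` an order of an
imaginary quadratic field; (2) for every `ε > 0` and all large `k` the numbers
`h(R)⁻¹ ∑ f(z(u^k c)) conj f(z(c))`, where `u` is the class of a prime ideal over the split number `p`, differ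
from `|mean f|²` by at most `ε` if `|disc R|` is large enough (depending on `k`). -/
def PairDuke (p : ℕ) : Prop :=
  ∀ f : ℍ → ℂ, IsTest f → ∀ ε : ℝ, 0 < ε →
    (∃ D : ℝ, ∀ (K R : Type) [Field K] [CommRing R] [IsDomain R] [Algebra R K] [IsFractionRing R K]
      [Fintype (ClassGroup R)] (b : Module.Basis (Fin 2) ℤ R) (φ : K →+* ℂ) (z : ClassGroup R → ℍ),
      IsCM φ z → D ≤ |(Algebra.discr ℤ b : ℝ)| →
        ‖(∑ c, f (z c)) / Fintype.card (ClassGroup R) - mean f‖ ≤ ε) ∧
    ∃ k₀ : ℕ, ∀ k : ℕ, k₀ ≤ k → ∃ D : ℝ, ∀ (K R : Type) [Field K] [CommRing R] [IsDomain R]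
      [Algebra R K] [IsFractionRing R K] [Fintype (ClassGroup R)] (b : Module.Basis (Fin 2) ℤ R)
      (φ : K →+* ℂ) (z : ClassGroup R → ℍ), IsCM φ z → D ≤ |(Algebra.discr ℤ b : ℝ)| →
      ∀ u : ClassGroup R, SplitClass K p u →
        ‖(∑ c, f (z (u ^ k * c)) * conj (f (z c))) / Fintype.card (ClassGroup R) -
          mean f * conj (mean f)‖ ≤ ε

/-- The projection of the subgroup `B` of the product to the `j`-th factor. -/
def projection {n : ℕ} {G : Fin n → Type} [∀ j, CommGroup (G j)] (B : Subgroup (∀ j, G j))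
    (j : Fin n) : Subgroup (G j) :=
  B.map (Pi.evalMonoidHom G j)

/-- The average of `f 1 ⊗ ... ⊗ f n` over the points with the coordinates
`z j (y j * b j * (a j) ^ (s j))`, `b ∈ B`. -/
noncomputable def orbitMean {n : ℕ} {G : Fin n → Type} [∀ j, CommGroup (G j)] (f : Fin n → ℍ → ℂ)
    (z : ∀ j, G j → ℍ) (B : Subgroup (∀ j, G j)) (y : ∀ j, G j) (s : Fin n → ℤˣ) (a : ∀ j, G j) : ℂ :=
  (∑ᶠ b : B, ∏ j, f j (z j (y j * b.1 j * a j ^ (s j : ℤ)))) / Nat.card B

/-- **Small orbits of almost all special points.**  Suppose `PairDuke p`.  Let `n`, `M` be natural numbers,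
`f 1, ..., f n` test functions and `ε > 0`.  Then there is `D` such that for all orders `R 1, ..., R n` of
imaginary quadratic fields with discriminants of absolute value at least `D`, all classes `u j` of prime
ideals over the split number `p` of `R j`, all subgroups `B` of the product of the class groups, of any
index, whose projection to the `j`-th factor contains a power `u j ^ r` with `1 ≤ r ≤ M`, for all `j`, and all
`y` and signs `s` the average over the orbit differs from the product of the means by more than `ε` for at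
most `ε h(R 1) ... h(R n)` of the special points of the type. -/
theorem result (p : ℕ) (hDuke : PairDuke p) (n M : ℕ) (f : Fin n → ℍ → ℂ) (hf : ∀ j, IsTest (f j))
    (ε : ℝ) (hε : 0 < ε) :
    ∃ D : ℝ, ∀ (K R : Fin n → Type) [∀ j, Field (K j)] [∀ j, CommRing (R j)] [∀ j, IsDomain (R j)]
      [∀ j, Algebra (R j) (K j)] [∀ j, IsFractionRing (R j) (K j)]
      [∀ j, Fintype (ClassGroup (R j))] (b : ∀ j, Module.Basis (Fin 2) ℤ (R j))
      (φ : ∀ j, K j →+* ℂ) (z : ∀ j, ClassGroup (R j) → ℍ), (∀ j, IsCM (φ j) (z j)) →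
      (∀ j, D ≤ |(Algebra.discr ℤ (b j) : ℝ)|) →
      ∀ u : ∀ j, ClassGroup (R j), (∀ j, SplitClass (K j) p (u j)) →
      ∀ B : Subgroup (∀ j, ClassGroup (R j)),
        (∀ j, ∃ r, 1 ≤ r ∧ r ≤ M ∧ u j ^ r ∈ projection B j) →
      ∀ (y : ∀ j, ClassGroup (R j)) (s : Fin n → ℤˣ),
        ({a : ∀ j, ClassGroup (R j) | ε < ‖orbitMean f z B y s a - ∏ j, mean (f j)‖}.ncard : ℝ) ≤
          ε * ∏ j, (Fintype.card (ClassGroup (R j)) : ℝ) := by
  classical
  choose C₀ hC₀ using fun j => (hf j).bounded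
  obtain ⟨C, hC1, hC, hCm⟩ : ∃ C : ℝ, 1 ≤ C ∧ (∀ j τ, ‖f j τ‖ ≤ C) ∧ ∀ j, ‖mean (f j)‖ ≤ C := by
    refine ⟨1 + ∑ j, (|C₀ j| + ‖mean (f j)‖), ?_, fun j τ => ?_, fun j => ?_⟩
    · have : 0 ≤ ∑ j, (|C₀ j| + ‖mean (f j)‖) := Finset.sum_nonneg fun j _ => by positivity
      linarith
    · have h1 := Finset.single_le_sum (f := fun j => |C₀ j| + ‖mean (f j)‖)
        (fun i _ => by positivity) (Finset.mem_univ j)
      have h2 := hC₀ j τ
      have h3 := le_abs_self (C₀ j)
      have h4 := norm_nonneg (mean (f j))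
      linarith
    · have h1 := Finset.single_le_sum (f := fun j => |C₀ j| + ‖mean (f j)‖)
        (fun i _ => by positivity) (Finset.mem_univ j)
      have h3 := abs_nonneg (C₀ j)
      linarith
  have hC0 : 0 < C := by linarith
  obtain ⟨δ, hδ0, hδ⟩ : ∃ δ : ℝ, 0 < δ ∧
      (n : ℝ) ^ 2 * ((√δ * (2 * C)) * (2 * C) ^ (2 * n)) / ε ^ 2 ≤ ε := by
    have hp : 0 < (n : ℝ) ^ 2 * (2 * C) ^ (2 * n) + 1 := by positivity
    refine ⟨(ε ^ 3 / ((n : ℝ) ^ 2 * (2 * C) ^ (2 * n) + 1) / (2 * C)) ^ 2, by positivity, ?_⟩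
    rw [Real.sqrt_sq (by positivity), div_mul_cancel₀ _ (by positivity), div_le_iff₀ (by positivity)]
    calc (n : ℝ) ^ 2 * (ε ^ 3 / ((n : ℝ) ^ 2 * (2 * C) ^ (2 * n) + 1) * (2 * C) ^ (2 * n))
        = ε ^ 3 * (((n : ℝ) ^ 2 * (2 * C) ^ (2 * n)) / ((n : ℝ) ^ 2 * (2 * C) ^ (2 * n) + 1)) := by ring
      _ ≤ ε ^ 3 * 1 := by
          refine mul_le_mul_of_nonneg_left ?_ (by positivity)
          rw [div_le_one hp]
          linarith
      _ = ε * ε ^ 2 := by ring
  -- the accuracy of the correlations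
  set ε₁ : ℝ := δ / 2 / (1 + 2 * C) with hε₁
  have hε₁0 : 0 < ε₁ := by positivity
  have hε₁m : (1 + 2 * C) * ε₁ = δ / 2 := by
    rw [hε₁, mul_div_cancel₀]
    positivity
  choose D₁ hD₁ using fun j => (hDuke (f j) (hf j) ε₁ hε₁0).1
  choose k₀ hk₀ using fun j => (hDuke (f j) (hf j) ε₁ hε₁0).2
  have hk₀' : ∀ (j : Fin n) (k : ℕ), ∃ D : ℝ, k₀ j ≤ k → ∀ (K R : Type) [Field K] [CommRing R] [IsDomain R]
      [Algebra R K] [IsFractionRing R K] [Fintype (ClassGroup R)] (b : Module.Basis (Fin 2) ℤ R)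
      (φ : K →+* ℂ) (z : ClassGroup R → ℍ), IsCM φ z → D ≤ |(Algebra.discr ℤ b : ℝ)| →
      ∀ u : ClassGroup R, SplitClass K p u →
        ‖(∑ c, f j (z (u ^ k * c)) * conj (f j (z c))) / Fintype.card (ClassGroup R) -
          mean (f j) * conj (mean (f j))‖ ≤ ε₁ := by
    intro j k
    by_cases h : k₀ j ≤ k
    · obtain ⟨D, hD⟩ := hk₀ j k h
      exact ⟨D, fun _ => hD⟩
    · exact ⟨0, fun h' => absurd h' h⟩
  choose D₂ hD₂ using hk₀'
  obtain ⟨N, hN⟩ := exists_nat_gt (2 * ((∑ j, k₀ j : ℕ) : ℝ) * (2 * C) ^ 2 / (δ / 2))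
  have hN0 : 0 < N := by
    have : (0 : ℝ) ≤ 2 * ((∑ j, k₀ j : ℕ) : ℝ) * (2 * C) ^ 2 / (δ / 2) := by positivity
    exact_mod_cast lt_of_le_of_lt this hN
  have hN' : (0 : ℝ) < N := by exact_mod_cast hN0
  refine ⟨∑ j, |D₁ j| + ∑ j, ∑ k ∈ Finset.range (M * N + 1), |D₂ j k|,
    fun K R _ _ _ _ _ _ b φ z hz hdisc u hu B hB y s => ?_⟩
  have hle1 : ∀ j, D₁ j ≤ |(Algebra.discr ℤ (b j) : ℝ)| := by
    intro j
    refine le_trans ?_ (hdisc j)
    have h1 := Finset.single_le_sum (f := fun j => |D₁ j|) (fun i _ => abs_nonneg _) (Finset.mem_univ j)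
    have h2 : 0 ≤ ∑ j, ∑ k ∈ Finset.range (M * N + 1), |D₂ j k| :=
      Finset.sum_nonneg fun _ _ => Finset.sum_nonneg fun _ _ => abs_nonneg _
    have h3 := le_abs_self (D₁ j)
    linarith
  have hle2 : ∀ j k, k ≤ M * N → D₂ j k ≤ |(Algebra.discr ℤ (b j) : ℝ)| := by
    intro j k hk
    refine le_trans ?_ (hdisc j)
    have h1 := Finset.single_le_sum (f := fun j => ∑ k ∈ Finset.range (M * N + 1), |D₂ j k|)
      (fun i _ => Finset.sum_nonneg fun _ _ => abs_nonneg _) (Finset.mem_univ j)
    have h2 := Finset.single_le_sum (f := fun k => |D₂ j k|) (fun i _ => abs_nonneg _)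
      (Finset.mem_range.2 (Nat.lt_succ_of_le hk))
    have h3 : 0 ≤ ∑ j, |D₁ j| := Finset.sum_nonneg fun _ _ => abs_nonneg _
    have h4 := le_abs_self (D₂ j k)
    linarith
  have hcor : ∀ j k, (∑ j, k₀ j) ≤ k → k ≤ M * N →
      ‖AC (fun g => f j (z j g) - mean (f j)) (u j ^ k)‖ ≤ δ / 2 := by
    intro j k hk hkM
    rw [← hε₁m]
    refine AC_sub_const_le (hCm j) hε₁0.le ?_ ?_
    · refine hD₂ j k ?_ (K j) (R j) (b j) (φ j) (z j) (hz j) (hle2 j k hkM) (u j) (hu j)
      exact (Finset.single_le_sum (f := k₀) (fun i _ => Nat.zero_le _) (Finset.mem_univ j)).trans hk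
    · exact hD₁ j (K j) (R j) (b j) (φ j) (z j) (hz j) (hle1 j)
  have hsmall : ∀ j, (∑ h : B.map (Pi.evalMonoidHom (fun j => ClassGroup (R j)) j),
      ‖AC (fun g => f j (z j g) - mean (f j)) (h : ClassGroup (R j))‖) /
      Fintype.card (B.map (Pi.evalMonoidHom (fun j => ClassGroup (R j)) j)) ≤ √δ * (2 * C) := by
    intro j
    obtain ⟨r, hr1, hr2, hr⟩ := hB j
    refine small_of_cor (K0 := ∑ j, k₀ j) (N := N) (R := M) (η := δ / 2) _ (fun g => ?_) hN0 hr1 hr2
      hr (by positivity) (hcor j) ?_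
    · exact (norm_sub_le _ _).trans (by linarith [hC j (z j g), hCm j])
    · rw [div_lt_iff₀ (by positivity)] at hN
      have h1 : 2 * ((∑ j, k₀ j : ℕ) : ℝ) * (2 * C) ^ 2 / N ≤ δ / 2 := by
        rw [div_le_iff₀ hN']
        linarith
      linarith
  have h2 := K_count (F := fun j g => f j (z j g)) (m := fun j => mean (f j)) (κ := √δ * (2 * C)) hC1
    (fun j g => hC j _) hCm B hsmall hε y s
  refine le_trans (le_of_eq ?_) (h2.trans ?_)
  · rfl
  · have : (0 : ℝ) ≤ ∏ j, (Fintype.card (ClassGroup (R j)) : ℝ) := by positivity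
    gcongr

end Pool.Agent.Results.MP_ad7a55_nt.SmallOrbits
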